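import Pool.Agent.H20.QL.Defs

/-!
# UQL, finite part: module NONAPPROX
-/

set_option autoImplicit false
open Finset Matrix

namespace Pool.Agent.H20.QL

namespace Nonapprox

lemma sg_mul_self (b : Bool) : sg b * sg b = 1 := by
  cases b <;> simp [sg]

lemma sg_not (b : Bool) : sg (!b) = -sg b := by
  cases b <;> simp [sg]

lemma abs_sg (b : Bool) : |sg b| = 1 := by
  cases b <;> simp [sg]

/-- orthogonality of the signs -/
lemma orth_sg {k : ℕ} (i j : Fin k) :
    ∑ s : Fin k → Bool, sg (s i) * sg (s j) = if i = j then (2 : ℝ) ^ k else 0 := by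
  split_ifs with h
  · subst h
    simp only [sg_mul_self, Finset.sum_const, Finset.card_univ, Fintype.card_fun, Fintype.card_bool,
      Fintype.card_fin, nsmul_eq_mul, mul_one]
    push_cast
    rfl
  · have hflip : ∑ s : Fin k → Bool, sg (s i) * sg (s j) =
        ∑ s : Fin k → Bool, -(sg (s i) * sg (s j)) := by
      refine Fintype.sum_equiv
        (Function.Involutive.toPerm (fun s : Fin k → Bool => Function.update s i (!s i)) ?_) _ _ ?_
      · intro s
        funext a
        by_cases ha : a = i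
        · subst ha
          simp
        · simp [ha]
      · intro s
        change sg (s i) * sg (s j) =
          -(sg (Function.update s i (!s i) i) * sg (Function.update s i (!s i) j))
        rw [Function.update_self, Function.update_of_ne (Ne.symm h), sg_not]
        ring
    rw [Finset.sum_neg_distrib] at hflip
    linarith

/-- orthogonality, bilinear form -/
lemma orth {k : ℕ} (c d : Fin k → ℝ) :
    ∑ s : Fin k → Bool, (∑ i, sg (s i) * c i) * (∑ j, sg (s j) * d j) =
      2 ^ k * ∑ i, c i * d i := by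
  have h1 : ∀ s : Fin k → Bool, (∑ i, sg (s i) * c i) * (∑ j, sg (s j) * d j) =
      ∑ i, ∑ j, c i * d j * (sg (s i) * sg (s j)) := by
    intro s
    rw [Finset.sum_mul_sum]
    refine Finset.sum_congr rfl fun i _ => Finset.sum_congr rfl fun j _ => ?_
    ring
  simp only [h1]
  rw [Finset.sum_comm]
  rw [Finset.mul_sum]
  refine Finset.sum_congr rfl fun i _ => ?_
  rw [Finset.sum_comm]
  simp only [← Finset.mul_sum, orth_sg]
  simp only [mul_ite, mul_zero, Finset.sum_ite_eq, Finset.mem_univ, if_true]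
  ring

/-- mean absolute value of a sum of signs -/
lemma abs_mean {k : ℕ} (c : Fin k → ℝ) (hc : ∀ i, c i * c i = 1) :
    ∑ s : Fin k → Bool, |∑ i, sg (s i) * c i| ≤ 2 ^ k * √k := by
  have h1 : (∑ s : Fin k → Bool, |∑ i, sg (s i) * c i|) ^ 2 ≤ (2 ^ k * √k) ^ 2 := by
    have h2 := Finset.sum_mul_sq_le_sq_mul_sq (Finset.univ : Finset (Fin k → Bool))
      (fun _ => (1 : ℝ)) (fun s => |∑ i, sg (s i) * c i|)
    simp only [one_mul, one_pow, Finset.sum_const, Finset.card_univ, Fintype.card_fun,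
      Fintype.card_bool, Fintype.card_fin, nsmul_eq_mul, mul_one, sq_abs] at h2
    have h3 : ∑ s : Fin k → Bool, (∑ i, sg (s i) * c i) ^ 2 = 2 ^ k * k := by
      have := orth c c
      simp only [hc, Finset.sum_const, Finset.card_univ, Fintype.card_fin, nsmul_eq_mul,
        mul_one] at this
      rw [← this]
      exact Finset.sum_congr rfl fun s _ => pow_two _
    rw [h3] at h2
    rw [mul_pow, Real.sq_sqrt (Nat.cast_nonneg k)]
    push_cast at h2
    calc _ ≤ _ := h2
      _ = _ := by ring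
  exact (abs_le_of_sq_le_sq' h1 (by positivity)).2

variable {V : Type} [Fintype V]

/-- the sum defining `k F_s(M)` -/
lemma expand {k : ℕ} (M : Matrix V V ℝ) (φ : V → ℝ) (ε : V → Fin k → Bool)
    (s : Fin k → Bool) :
    ∑ i, sg (s i) * ((fun x => sg (ε x i) * φ x) ⬝ᵥ (M *ᵥ fun x => sg (ε x i) * φ x)) =
      ∑ x, ∑ y, φ x * φ y * M x y * ∑ i, sg (s i) * (sg (ε x i) * sg (ε y i)) := by
  have h1 : ∀ i, sg (s i) * ((fun x => sg (ε x i) * φ x) ⬝ᵥ (M *ᵥ fun x => sg (ε x i) * φ x)) =
      ∑ x, ∑ y, φ x * φ y * M x y * (sg (s i) * (sg (ε x i) * sg (ε y i))) := by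
    intro i
    simp only [dotProduct, Matrix.mulVec, Finset.mul_sum]
    refine Finset.sum_congr rfl fun x _ => Finset.sum_congr rfl fun y _ => ?_
    ring
  simp only [h1]
  rw [Finset.sum_comm]
  refine Finset.sum_congr rfl fun x _ => ?_
  rw [Finset.sum_comm]
  refine Finset.sum_congr rfl fun y _ => ?_
  rw [Finset.mul_sum]

end Nonapprox

open Nonapprox in
theorem nonapprox : NonapproxStmt := by
  intro n C hC
  filter_upwards [Filter.eventually_gt_atTop (⌈(2 * (n : ℝ) * (C + 1 / 4)) ^ 2⌉₊)] with k hk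
  intro V _ _ H φ ε S hH hφ hSn hSs h34 hop
  have hk0 : (0 : ℝ) < k := by
    have : 0 < k := by omega
    exact_mod_cast this
  have hkbig : (2 * (n : ℝ) * (C + 1 / 4)) ^ 2 < k := (Nat.le_ceil _).trans_lt (by exact_mod_cast hk)
  by_contra hcon
  push Not at hcon
  choose B hB hB' using hcon
  set κ : (Fin k → Bool) → V → V → ℝ := fun s x y =>
    ∑ i, sg (s i) * (sg (ε x i) * sg (ε y i)) with hκ
  set A : (Fin k → Bool) → Matrix V V ℝ := fun s => op (H ^ 2) ε s with hA
  have hAe : ∀ s x y, A s x y = (H ^ 2) x y * κ s x y := by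
    intro s x y
    simp only [hA, op, hκ, mul_assoc]
  -- the unit vectors
  have hunit : ∀ i : Fin k, (fun x => sg (ε x i) * φ x) ⬝ᵥ (fun x => sg (ε x i) * φ x) = 1 := by
    intro i
    rw [← hφ]
    simp only [dotProduct]
    refine Finset.sum_congr rfl fun x _ => ?_
    calc _ = (sg (ε x i) * sg (ε x i)) * (φ x * φ x) := by ring
      _ = φ x * φ x := by rw [sg_mul_self, one_mul]
  -- entries of B
  have hBe : ∀ s x y, |B s x y| ≤ C + 1 / 4 := by
    intro s x y
    have h1 := hB' s (Pi.single x 1) (Pi.single y 1)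
    rw [Matrix.mulVec_single_one, single_one_dotProduct, single_one_dotProduct,
      single_one_dotProduct] at h1
    simp only [Matrix.col_apply, Matrix.sub_apply, Pi.single_eq_same, Real.sqrt_one,
      mul_one] at h1
    have h2 := hop s x y
    have h3 : |B s x y| ≤ |op (H ^ 2) ε s x y| + |op (H ^ 2) ε s x y - B s x y| := by
      have := abs_sub_abs_le_abs_sub (B s x y) (op (H ^ 2) ε s x y)
      rw [abs_sub_comm] at this
      linarith
    linarith
  -- (1) the mean of `F_s(A_s)`
  have hmean : ∑ s : Fin k → Bool, ∑ x, ∑ y, φ x * φ y * A s x y * κ s x y =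
      2 ^ k * (k * ((H *ᵥ φ) ⬝ᵥ (H *ᵥ φ))) := by
    have e1 : ∀ x y, ∑ s : Fin k → Bool, φ x * φ y * A s x y * κ s x y =
        2 ^ k * (k * (φ x * φ y * (H ^ 2) x y)) := by
      intro x y
      have := orth (fun i => sg (ε x i) * sg (ε y i)) (fun i => sg (ε x i) * sg (ε y i))
      have h3 : ∀ i : Fin k, sg (ε x i) * sg (ε y i) * (sg (ε x i) * sg (ε y i)) = 1 := by
        intro i
        calc _ = (sg (ε x i) * sg (ε x i)) * (sg (ε y i) * sg (ε y i)) := by ring
          _ = 1 := by rw [sg_mul_self, sg_mul_self, one_mul]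
      simp only [h3, Finset.sum_const, Finset.card_univ, Fintype.card_fin, nsmul_eq_mul,
        mul_one] at this
      calc _ = ∑ s : Fin k → Bool, (φ x * φ y * (H ^ 2) x y) * (κ s x y * κ s x y) := by
            refine Finset.sum_congr rfl fun s _ => ?_
            rw [hAe]
            ring
        _ = (φ x * φ y * (H ^ 2) x y) * ∑ s : Fin k → Bool, κ s x y * κ s x y := by
            rw [Finset.mul_sum]
        _ = (φ x * φ y * (H ^ 2) x y) * (2 ^ k * k) := by rw [← this]
        _ = _ := by ring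
    rw [Finset.sum_comm]
    have e2 : (H *ᵥ φ) ⬝ᵥ (H *ᵥ φ) = ∑ x, ∑ y, φ x * φ y * (H ^ 2) x y := by
      have : (H *ᵥ φ) ⬝ᵥ (H *ᵥ φ) = φ ⬝ᵥ ((H ^ 2) *ᵥ φ) := by
        rw [pow_two, ← Matrix.mulVec_mulVec, Matrix.dotProduct_mulVec φ H, ← Matrix.mulVec_transpose,
          hH.eq]
      rw [this]
      simp only [dotProduct, Matrix.mulVec, Finset.mul_sum]
      refine Finset.sum_congr rfl fun x _ => Finset.sum_congr rfl fun y _ => ?_
      ring
    rw [e2, Finset.mul_sum, Finset.mul_sum]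
    refine Finset.sum_congr rfl fun x _ => ?_
    rw [Finset.sum_comm, Finset.mul_sum, Finset.mul_sum]
    exact Finset.sum_congr rfl fun y _ => e1 x y
  -- (2) the difference
  have hdiff : ∀ s, ∑ x, ∑ y, φ x * φ y * (A s - B s) x y * κ s x y ≤ k * (1 / 4) := by
    intro s
    rw [← expand (A s - B s) φ ε s]
    calc _ ≤ ∑ i : Fin k, (1 / 4 : ℝ) := by
          refine Finset.sum_le_sum fun i _ => ?_
          have h1 := hB' s (fun x => sg (ε x i) * φ x) (fun x => sg (ε x i) * φ x)
          rw [hunit i, Real.sqrt_one, mul_one, mul_one] at h1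
          calc _ ≤ |sg (s i) * ((fun x => sg (ε x i) * φ x) ⬝ᵥ
                ((A s - B s) *ᵥ fun x => sg (ε x i) * φ x))| := le_abs_self _
            _ ≤ 1 / 4 := by
                rw [abs_mul, abs_sg, one_mul]
                exact h1
      _ = k * (1 / 4) := by simp
  -- (3) the part of `B`
  have hBpart : ∑ s : Fin k → Bool, ∑ x, ∑ y, φ x * φ y * B s x y * κ s x y ≤
      (C + 1 / 4) * n * (2 ^ k * √k) := by
    have e1 : ∀ (s : Fin k → Bool) x, ∑ y, φ x * φ y * B s x y * κ s x y ≤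
        ∑ y ∈ S x, (C + 1 / 4) * (|φ x * φ y| * |κ s x y|) := by
      intro s x
      have h0 : ∑ y, φ x * φ y * B s x y * κ s x y = ∑ y ∈ S x, φ x * φ y * B s x y * κ s x y := by
        symm
        refine Finset.sum_subset (Finset.subset_univ _) fun y _ hy => ?_
        have : B s x y = 0 := by
          by_contra h
          exact hy (hB s x y h)
        rw [this]
        ring
      rw [h0]
      refine Finset.sum_le_sum fun y _ => ?_
      calc φ x * φ y * B s x y * κ s x y ≤ |φ x * φ y * B s x y * κ s x y| := le_abs_self _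
        _ = |B s x y| * (|φ x * φ y| * |κ s x y|) := by
            rw [abs_mul, abs_mul (φ x * φ y)]
            ring
        _ ≤ _ := mul_le_mul_of_nonneg_right (hBe s x y) (by positivity)
    have e2 : ∀ x y, ∑ s : Fin k → Bool, |κ s x y| ≤ 2 ^ k * √k := by
      intro x y
      refine abs_mean _ fun i => ?_
      calc _ = (sg (ε x i) * sg (ε x i)) * (sg (ε y i) * sg (ε y i)) := by ring
        _ = 1 := by rw [sg_mul_self, sg_mul_self, one_mul]
    have e3 : ∑ x, ∑ y ∈ S x, |φ x * φ y| ≤ n := by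
      have h1 : ∑ x, ∑ y ∈ S x, |φ x * φ y| ≤ ∑ x, ∑ y ∈ S x, (φ x ^ 2 / 2 + φ y ^ 2 / 2) := by
        refine Finset.sum_le_sum fun x _ => Finset.sum_le_sum fun y _ => ?_
        rw [abs_mul]
        have := two_mul_le_add_sq (|φ x|) (|φ y|)
        rw [sq_abs, sq_abs] at this
        linarith
      have h2 : ∑ x, ∑ y ∈ S x, φ y ^ 2 / 2 = ∑ x, ∑ y ∈ S x, φ x ^ 2 / 2 := by
        have g1 : ∀ x, ∑ y ∈ S x, φ y ^ 2 / 2 = ∑ y, if y ∈ S x then φ y ^ 2 / 2 else 0 := by
          intro x
          rw [Finset.sum_ite_mem, Finset.univ_inter]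
        have g2 : ∀ x, ∑ y ∈ S x, φ x ^ 2 / 2 = ∑ y, if y ∈ S x then φ x ^ 2 / 2 else 0 := by
          intro x
          rw [Finset.sum_ite_mem, Finset.univ_inter]
        simp only [g1, g2]
        rw [Finset.sum_comm]
        refine Finset.sum_congr rfl fun x _ => Finset.sum_congr rfl fun y _ => ?_
        have : x ∈ S y ↔ y ∈ S x := ⟨hSs y x, hSs x y⟩
        simp only [this]
      have h3 : ∑ x, ∑ y ∈ S x, φ x ^ 2 / 2 ≤ (n : ℝ) / 2 := by
        have hφ' : ∑ x, φ x ^ 2 = 1 := by
          rw [← hφ]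
          exact Finset.sum_congr rfl fun x _ => pow_two _
        calc ∑ x, ∑ y ∈ S x, φ x ^ 2 / 2 = ∑ x, ((S x).card : ℝ) * (φ x ^ 2 / 2) := by
              refine Finset.sum_congr rfl fun x _ => ?_
              rw [Finset.sum_const, nsmul_eq_mul]
          _ ≤ ∑ x, (n : ℝ) * (φ x ^ 2 / 2) := by
              refine Finset.sum_le_sum fun x _ => mul_le_mul_of_nonneg_right ?_ (by positivity)
              exact_mod_cast hSn x
          _ = (n : ℝ) / 2 * ∑ x, φ x ^ 2 := by
              rw [Finset.mul_sum]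
              exact Finset.sum_congr rfl fun x _ => by ring
          _ = (n : ℝ) / 2 := by rw [hφ', mul_one]
      simp only [Finset.sum_add_distrib] at h1
      rw [h2] at h1
      linarith
    calc ∑ s : Fin k → Bool, ∑ x, ∑ y, φ x * φ y * B s x y * κ s x y
        ≤ ∑ s : Fin k → Bool, ∑ x, ∑ y ∈ S x, (C + 1 / 4) * (|φ x * φ y| * |κ s x y|) :=
          Finset.sum_le_sum fun s _ => Finset.sum_le_sum fun x _ => e1 s x
      _ = ∑ x, ∑ y ∈ S x, (C + 1 / 4) * (|φ x * φ y| * ∑ s : Fin k → Bool, |κ s x y|) := by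
          rw [Finset.sum_comm]
          refine Finset.sum_congr rfl fun x _ => ?_
          rw [Finset.sum_comm]
          refine Finset.sum_congr rfl fun y _ => ?_
          rw [Finset.mul_sum, Finset.mul_sum]
      _ ≤ ∑ x, ∑ y ∈ S x, (C + 1 / 4) * (|φ x * φ y| * (2 ^ k * √k)) := by
          refine Finset.sum_le_sum fun x _ => Finset.sum_le_sum fun y _ => ?_
          exact mul_le_mul_of_nonneg_left
            (mul_le_mul_of_nonneg_left (e2 x y) (abs_nonneg _)) (by linarith)
      _ = (C + 1 / 4) * (2 ^ k * √k) * ∑ x, ∑ y ∈ S x, |φ x * φ y| := by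
          rw [Finset.mul_sum]
          refine Finset.sum_congr rfl fun x _ => ?_
          rw [Finset.mul_sum]
          exact Finset.sum_congr rfl fun y _ => by ring
      _ ≤ (C + 1 / 4) * (2 ^ k * √k) * n := mul_le_mul_of_nonneg_left e3 (by positivity)
      _ = _ := by ring
  -- conclusion
  have hsplit : ∑ s : Fin k → Bool, ∑ x, ∑ y, φ x * φ y * A s x y * κ s x y =
      ∑ s : Fin k → Bool, ∑ x, ∑ y, φ x * φ y * (A s - B s) x y * κ s x y +
      ∑ s : Fin k → Bool, ∑ x, ∑ y, φ x * φ y * B s x y * κ s x y := by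
    simp only [← Finset.sum_add_distrib]
    refine Finset.sum_congr rfl fun s _ => Finset.sum_congr rfl fun x _ =>
      Finset.sum_congr rfl fun y _ => ?_
    rw [Matrix.sub_apply]
    ring
  have hdiff' : ∑ s : Fin k → Bool, ∑ x, ∑ y, φ x * φ y * (A s - B s) x y * κ s x y ≤
      2 ^ k * (k * (1 / 4)) := by
    calc _ ≤ ∑ s : Fin k → Bool, (k : ℝ) * (1 / 4) := Finset.sum_le_sum fun s _ => hdiff s
      _ = _ := by simp
  have h2k : (0 : ℝ) < 2 ^ k := by positivity
  have hfin : (2 : ℝ) ^ k * (k * (3 / 4)) ≤ 2 ^ k * (k * (1 / 4) + (C + 1 / 4) * n * √k) := by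
    calc (2 : ℝ) ^ k * (k * (3 / 4)) ≤ 2 ^ k * (k * ((H *ᵥ φ) ⬝ᵥ (H *ᵥ φ))) := by
          gcongr
      _ = _ := hmean.symm
      _ ≤ 2 ^ k * (k * (1 / 4)) + (C + 1 / 4) * n * (2 ^ k * √k) := by
          rw [hsplit]
          exact add_le_add hdiff' hBpart
      _ = _ := by ring
  have hfin2 := le_of_mul_le_mul_left hfin h2k
  have hs : √(k : ℝ) * √k = k := Real.mul_self_sqrt hk0.le
  have hspos : 0 < √(k : ℝ) := Real.sqrt_pos.2 hk0
  have h5 : √(k : ℝ) * (1 / 2) ≤ (C + 1 / 4) * n := by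
    have : √(k : ℝ) * (√(k : ℝ) * (1 / 2)) ≤ √(k : ℝ) * ((C + 1 / 4) * n) := by
      calc √(k : ℝ) * (√(k : ℝ) * (1 / 2)) = k * (1 / 2) := by rw [← mul_assoc, hs]
        _ ≤ (C + 1 / 4) * n * √k := by linarith
        _ = _ := by ring
    exact le_of_mul_le_mul_left this hspos
  have h6 : √(k : ℝ) ≤ 2 * (n : ℝ) * (C + 1 / 4) := by linarith
  have h7 : (k : ℝ) ≤ (2 * (n : ℝ) * (C + 1 / 4)) ^ 2 := by
    calc (k : ℝ) = √(k : ℝ) ^ 2 := (Real.sq_sqrt hk0.le).symm
      _ ≤ _ := pow_le_pow_left₀ hspos.le h6 2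
  linarith

end Pool.Agent.H20.QL
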