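import Pool.Agent.H20.QL.Defs

/-!
# UQL, finite part: module RESOLVENT
-/

set_option autoImplicit false
open Finset Matrix

namespace Pool.Agent.H20.QL

namespace Resolvent

variable {W V : Type} [Fintype W] [DecidableEq W] [Fintype V]

lemma dot_self_nonneg {X : Type} [Fintype X] (v : X → ℝ) : 0 ≤ v ⬝ᵥ v :=
  Finset.sum_nonneg fun x _ => mul_self_nonneg (v x)

omit [DecidableEq W] in
/-- `⟨A Aᵀ v, w⟩ = ⟨Aᵀ v, Aᵀ w⟩` -/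
lemma gram (A : Matrix W V ℝ) (v w : W → ℝ) :
    v ⬝ᵥ ((A * Aᵀ) *ᵥ w) = (Aᵀ *ᵥ v) ⬝ᵥ (Aᵀ *ᵥ w) := by
  rw [← Matrix.mulVec_mulVec, Matrix.dotProduct_mulVec, ← Matrix.mulVec_transpose]

omit [DecidableEq W] in
lemma tr_dot (A : Matrix W V ℝ) (v : W → ℝ) (b : V → ℝ) :
    v ⬝ᵥ (A *ᵥ b) = (Aᵀ *ᵥ v) ⬝ᵥ b := by
  rw [Matrix.dotProduct_mulVec, ← Matrix.mulVec_transpose]

lemma posdef (A : Matrix W V ℝ) {κ : ℝ} (hκ : 0 < κ) :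
    (A * Aᵀ + κ • (1 : Matrix W W ℝ)).PosDef := by
  have h1 : (A * Aᵀ).PosSemidef := by
    have := Matrix.posSemidef_self_mul_conjTranspose A
    rwa [Matrix.conjTranspose_eq_transpose_of_trivial] at this
  have h2 : (κ • (1 : Matrix W W ℝ)).PosDef := Matrix.PosDef.one.smul hκ
  exact Matrix.PosDef.posSemidef_add h1 h2

end Resolvent

open Resolvent in
theorem resolvent : ResolventStmt := by
  intro W V _ _ _ A κ hκ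
  set G : Matrix W W ℝ := A * Aᵀ with hG
  set M : Matrix W W ℝ := G + κ • (1 : Matrix W W ℝ) with hM
  have hpd : M.PosDef := posdef A hκ
  have hdet : IsUnit M.det := (Matrix.isUnit_iff_isUnit_det M).1 hpd.isUnit
  have hMM : M * M⁻¹ = 1 := Matrix.mul_nonsing_inv M hdet
  have hMM' : M⁻¹ * M = 1 := Matrix.nonsing_inv_mul M hdet
  have hGs : Gᵀ = G := by
    rw [hG, Matrix.transpose_mul, Matrix.transpose_transpose]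
  have hMs : Mᵀ = M := by
    rw [hM, Matrix.transpose_add, hGs, Matrix.transpose_smul, Matrix.transpose_one]
  have hcomm : G * M = M * G := by
    rw [hM, mul_add, add_mul]
    simp
  have hcomm' : G * M⁻¹ = M⁻¹ * G := by
    calc G * M⁻¹ = (M⁻¹ * M) * G * M⁻¹ := by rw [hMM', one_mul]
      _ = M⁻¹ * (M * G) * M⁻¹ := by simp only [mul_assoc]
      _ = M⁻¹ * (G * M) * M⁻¹ := by rw [hcomm]
      _ = M⁻¹ * G * (M * M⁻¹) := by simp only [mul_assoc]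
      _ = M⁻¹ * G := by rw [hMM, mul_one]
  -- everything in terms of `v = M⁻¹ u`
  have hu : ∀ u : W → ℝ, u = M *ᵥ (M⁻¹ *ᵥ u) := by
    intro u
    rw [Matrix.mulVec_mulVec, hMM, Matrix.one_mulVec]
  have hMv : ∀ v : W → ℝ, M *ᵥ v = G *ᵥ v + κ • v := by
    intro v
    rw [hM, Matrix.add_mulVec, Matrix.smul_mulVec, Matrix.one_mulVec]
  have hQu : ∀ u : W → ℝ, (G * M⁻¹) *ᵥ u = G *ᵥ (M⁻¹ *ᵥ u) := by
    intro u
    rw [Matrix.mulVec_mulVec]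
  have hGv : ∀ v w : W → ℝ, v ⬝ᵥ (G *ᵥ w) = (Aᵀ *ᵥ v) ⬝ᵥ (Aᵀ *ᵥ w) := fun v w => gram A v w
  -- the quadratic form
  have hform : ∀ u : W → ℝ, u ⬝ᵥ ((G * M⁻¹) *ᵥ u) =
      (G *ᵥ (M⁻¹ *ᵥ u)) ⬝ᵥ (G *ᵥ (M⁻¹ *ᵥ u)) +
        κ * ((Aᵀ *ᵥ (M⁻¹ *ᵥ u)) ⬝ᵥ (Aᵀ *ᵥ (M⁻¹ *ᵥ u))) := by
    intro u
    rw [hQu]
    conv_lhs => rw [hu u]
    generalize M⁻¹ *ᵥ u = v
    have e : M⁻¹ *ᵥ (M *ᵥ v) = v := by rw [Matrix.mulVec_mulVec, hMM', Matrix.one_mulVec]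
    rw [e, hMv, add_dotProduct, smul_dotProduct, hGv v v, smul_eq_mul]
  refine ⟨G * M⁻¹, ?_, ?_, ?_, ?_, ?_⟩
  · rw [Matrix.IsSymm, Matrix.transpose_mul, Matrix.transpose_nonsing_inv, hMs, hGs, hcomm']
  · intro u
    rw [hform]
    have h1 := dot_self_nonneg (G *ᵥ (M⁻¹ *ᵥ u))
    have h2 := dot_self_nonneg (Aᵀ *ᵥ (M⁻¹ *ᵥ u))
    positivity
  · intro u
    have h0 : u ⬝ᵥ u = u ⬝ᵥ ((G * M⁻¹) *ᵥ u) +
        κ * ((Aᵀ *ᵥ (M⁻¹ *ᵥ u)) ⬝ᵥ (Aᵀ *ᵥ (M⁻¹ *ᵥ u)) +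
          κ * ((M⁻¹ *ᵥ u) ⬝ᵥ (M⁻¹ *ᵥ u))) := by
      rw [hform]
      conv_lhs => rw [hu u]
      generalize M⁻¹ *ᵥ u = v
      rw [hMv, add_dotProduct, dotProduct_add, dotProduct_add, smul_dotProduct, smul_dotProduct,
        dotProduct_smul, dotProduct_smul, dotProduct_comm (G *ᵥ v) v, hGv v v]
      simp only [smul_eq_mul]
      ring
    have h1 := dot_self_nonneg (M⁻¹ *ᵥ u)
    have h2 := dot_self_nonneg (Aᵀ *ᵥ (M⁻¹ *ᵥ u))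
    have h3 : 0 ≤ κ * ((Aᵀ *ᵥ (M⁻¹ *ᵥ u)) ⬝ᵥ (Aᵀ *ᵥ (M⁻¹ *ᵥ u)) +
          κ * ((M⁻¹ *ᵥ u) ⬝ᵥ (M⁻¹ *ᵥ u))) := by positivity
    linarith
  · have hkey : ∀ u : W → ℝ, κ * (u ⬝ᵥ ((G * M⁻¹) *ᵥ u)) ≤ u ⬝ᵥ (G *ᵥ u) := by
      intro u
      rw [hform]
      have e1 : u ⬝ᵥ (G *ᵥ u) =
          (Aᵀ *ᵥ (G *ᵥ (M⁻¹ *ᵥ u))) ⬝ᵥ (Aᵀ *ᵥ (G *ᵥ (M⁻¹ *ᵥ u))) +
          2 * κ * ((G *ᵥ (M⁻¹ *ᵥ u)) ⬝ᵥ (G *ᵥ (M⁻¹ *ᵥ u))) +
          κ ^ 2 * ((Aᵀ *ᵥ (M⁻¹ *ᵥ u)) ⬝ᵥ (Aᵀ *ᵥ (M⁻¹ *ᵥ u))) := by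
        rw [hGv u u]
        conv_lhs => rw [hu u]
        generalize M⁻¹ *ᵥ u = v
        have e2 : (Aᵀ *ᵥ (G *ᵥ v)) ⬝ᵥ (Aᵀ *ᵥ v) = (G *ᵥ v) ⬝ᵥ (G *ᵥ v) := by
          rw [← hGv (G *ᵥ v) v]
        rw [hMv, Matrix.mulVec_add, Matrix.mulVec_smul, add_dotProduct, dotProduct_add,
          dotProduct_add, smul_dotProduct, smul_dotProduct, dotProduct_smul, dotProduct_smul,
          dotProduct_comm (Aᵀ *ᵥ v) (Aᵀ *ᵥ (G *ᵥ v)), e2]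
        simp only [smul_eq_mul]
        ring
      rw [e1]
      have h1 := dot_self_nonneg (Aᵀ *ᵥ (G *ᵥ (M⁻¹ *ᵥ u)))
      have h2 := dot_self_nonneg (G *ᵥ (M⁻¹ *ᵥ u))
      nlinarith
    rw [le_div_iff₀ hκ, Matrix.trace, Matrix.trace, Finset.sum_mul]
    refine Finset.sum_le_sum fun x _ => ?_
    have h := hkey (Pi.single x 1)
    rw [Matrix.mulVec_single_one, Matrix.mulVec_single_one, single_one_dotProduct,
      single_one_dotProduct] at h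
    simp only [Matrix.col_apply] at h
    simp only [Matrix.diag_apply]
    linarith
  · intro k u β
    have hi : ∀ i, u i ⬝ᵥ (A *ᵥ β i) =
        (G *ᵥ (M⁻¹ *ᵥ u i)) ⬝ᵥ (A *ᵥ β i) + κ * ((Aᵀ *ᵥ (M⁻¹ *ᵥ u i)) ⬝ᵥ β i) := by
      intro i
      conv_lhs => rw [hu (u i)]
      rw [hMv, add_dotProduct, smul_dotProduct, smul_eq_mul, tr_dot A (M⁻¹ *ᵥ u i) (β i)]
    set F : Fin k × (W ⊕ V) → ℝ := fun p => Sum.elim (fun x => (G *ᵥ (M⁻¹ *ᵥ u p.1)) x)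
      (fun y => √κ * (Aᵀ *ᵥ (M⁻¹ *ᵥ u p.1)) y) p.2 with hF
    set H : Fin k × (W ⊕ V) → ℝ := fun p => Sum.elim (fun x => (A *ᵥ β p.1) x)
      (fun y => √κ * β p.1 y) p.2 with hH
    have hsq : √κ * √κ = κ := Real.mul_self_sqrt hκ.le
    have c0 := Finset.sum_mul_sq_le_sq_mul_sq (Finset.univ : Finset (Fin k × (W ⊕ V))) F H
    have c1 : ∑ p, F p * H p = ∑ i, u i ⬝ᵥ (A *ᵥ β i) := by
      rw [Fintype.sum_prod_type]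
      refine Finset.sum_congr rfl fun i _ => ?_
      rw [hi, Fintype.sum_sum_type]
      simp only [hF, hH, Sum.elim_inl, Sum.elim_inr, dotProduct, Finset.mul_sum]
      congr 1
      refine Finset.sum_congr rfl fun y _ => ?_
      calc _ = (√κ * √κ) * ((Aᵀ *ᵥ (M⁻¹ *ᵥ u i)) y * β i y) := by ring
        _ = _ := by rw [hsq]
    have c2 : ∑ p, F p ^ 2 = ∑ i, u i ⬝ᵥ ((G * M⁻¹) *ᵥ u i) := by
      rw [Fintype.sum_prod_type]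
      refine Finset.sum_congr rfl fun i _ => ?_
      rw [hform, Fintype.sum_sum_type]
      simp only [hF, Sum.elim_inl, Sum.elim_inr, dotProduct, Finset.mul_sum]
      congr 1
      · exact Finset.sum_congr rfl fun y _ => pow_two _
      · refine Finset.sum_congr rfl fun y _ => ?_
        rw [mul_pow, Real.sq_sqrt hκ.le, pow_two]
    have c3 : ∑ p, H p ^ 2 = ∑ i, ((A *ᵥ β i) ⬝ᵥ (A *ᵥ β i) + κ * (β i ⬝ᵥ β i)) := by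
      rw [Fintype.sum_prod_type]
      refine Finset.sum_congr rfl fun i _ => ?_
      rw [Fintype.sum_sum_type]
      simp only [hH, Sum.elim_inl, Sum.elim_inr, dotProduct, Finset.mul_sum]
      congr 1
      · exact Finset.sum_congr rfl fun y _ => pow_two _
      · refine Finset.sum_congr rfl fun y _ => ?_
        rw [mul_pow, Real.sq_sqrt hκ.le, pow_two]
    rw [c1, c2, c3] at c0
    exact c0

end Pool.Agent.H20.QL
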